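import Pool.Agent.W2helper63.LL.All2

/-!
# Local liftings compatible with all global liftings do not exist (`GL₂`, standard representation)

`K = F₂(T)`, `𝔭` = the infinite place, `F = K_𝔭 = F₂((1/T))`, `𝐆 = 𝐆' = GL₂` (split), `ρ` the
standard representation of the dual group `GL₂(ℂ)`. A global lifting of an automorphic
representation `π` of `GL₂(𝔸_K)` is an isobaric automorphic representation `Q` of `GL₂(𝔸_K)` which
has the same component as `π` at all places where `π` is unramified. The theorem says that no map
`l` of `Irr(GL₂(F))` into itself gives the components at `𝔭` of all global liftings. This is the
negation of Q1.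

Idea. Let `π₁` be the representation with component `St` (Steinberg) at `𝔭` and trivial
components at all other places. It is automorphic (a subquotient of the space of automorphic
forms, which is shown with an explicit Eisenstein series); its global lifting is the trivial
representation, so that `l(St)` would have to be the trivial representation. But there is a
cuspidal representation `π₂` with component `St` at `𝔭`, and `π₂` is its own global lifting, so
that `l(St)` would have to be `St`.

`π₂` is generated by `F(g) = f(g) - f(g w)`, where `w = (0 1; 1/T 0)` at `𝔭` and `f` is supported
on `GL₂(K) (1/T)^ℤ D`, `D` = the matrices in the product of all `GL₂(O_v)` which are lower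
triangular mod `T` and upper triangular mod `1/T`, `f(γ T^n k) = sign of k mod (T - 1)`. The
relations of the Iwahori-Hecke algebra at `𝔭` are verified directly. The local key lemma (`S_KL`)
says that a vector on which the Iwahori-Hecke algebra acts by the Steinberg character generates
an irreducible representation.

All definitions are in `Pool/Agent/W2helper63/LL/Pres.lean`.
-/

set_option autoImplicit false

namespace Pool.Agent.Results.MP_5ae62c_nt.NoLocalLifting

open Pool.Agent.W2helper63.LL (Irr)
open Pool.Agent.W2helper63.LL.P

/-- Q1 fails for `F = F₂((1/T))`, `𝐆 = GL₂`, `ρ` the standard representation, already for the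
single global situation `K = F₂(T)`, `𝔭` the infinite place: no map
`l : Irr(GL₂(F)) → Irr(GL₂(F))` gives the components at `𝔭` of all global liftings of all
automorphic representations. -/
theorem result :
    ¬ ∃ l : Irr GInf → Irr GInf,
      ∀ π Q : Irr GA, Automorphic π → Lifting π Q →
        ∀ σ τ : Irr GInf, CompInf π σ → CompInf Q τ → Iso τ (l σ) :=
  Pool.Agent.W2helper63.LL.Conv.conv Pool.Agent.W2helper63.LL.main2

end Pool.Agent.Results.MP_5ae62c_nt.NoLocalLifting
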